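import Pool.Agent.N472.Hole.Proof

/-!
# A `t`-design whose spectrum of minimal defining sets has a hole

The 2-(8,4,3) design formed by the 14 planes of the affine space `AG(3,2)` has minimal defining
sets of 6 blocks and of 8 blocks, and of no other sizes.
-/

namespace Pool.Agent.Results.MP_13ec72_co.SpectrumHole

open Pool.Agent.N472.Hole

/-- The set `planes` is a 2-(8,4,3) design whose minimal defining sets have exactly the sizes
`6` and `8`; its spectrum has a hole at `7`. -/
theorem result : IsDesign 2 8 4 3 planes ∧ Spec 2 8 4 3 planes = {6, 8} :=
  ⟨isDesign_planes, spec_planes⟩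

end Pool.Agent.Results.MP_13ec72_co.SpectrumHole
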